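import Pool.Agent.Y434.IndepSum

/-!
# A 20-vertex 4-regular triangle-free graph with small occupancy fraction
-/

set_option autoImplicit false

namespace Pool.Agent.Y434.Occ

open Pool.Agent.Y434.IndepSum

/-- the adjacency masks stored in a list -/
def msk (L : List ℕ) (i : ℕ) : ℕ := L.getD i 0

/-- the checks that make `msk L` a simple graph on `L.length` vertices -/
def good (L : List ℕ) : Bool :=
  (List.range L.length).all fun i => (decide (msk L i < 2 ^ L.length)) && !(msk L i).testBit i &&
    (List.range L.length).all fun j => (msk L i).testBit j == (msk L j).testBit i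

lemma good_spec {L : List ℕ} (h : good L = true) :
    ∀ i < L.length, msk L i < 2 ^ L.length ∧ (msk L i).testBit i = false ∧
      ∀ j < L.length, (msk L i).testBit j = (msk L j).testBit i := by
  intro i hi
  unfold good at h
  rw [List.all_eq_true] at h
  have h1 := h i (List.mem_range.2 hi)
  rw [Bool.and_eq_true, Bool.and_eq_true, decide_eq_true_iff, List.all_eq_true] at h1
  refine ⟨h1.1.1, by simpa using h1.1.2, fun j hj => ?_⟩
  simpa using h1.2 j (List.mem_range.2 hj)

lemma msk_zero {L : List ℕ} {i : ℕ} (h : L.length ≤ i) : msk L i = 0 := by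
  unfold msk
  rw [List.getD_eq_getElem?_getD, List.getElem?_eq_none h]
  rfl

lemma msk_symm {L : List ℕ} (h : good L = true) :
    ∀ i j, (msk L i).testBit j = (msk L j).testBit i := by
  have key : ∀ i j, L.length ≤ i → (msk L i).testBit j = (msk L j).testBit i := by
    intro i j hi
    rw [msk_zero hi, Nat.zero_testBit]
    symm
    rcases lt_or_ge j L.length with hj | hj
    · apply Nat.testBit_lt_two_pow
      exact lt_of_lt_of_le (good_spec h j hj).1 (Nat.pow_le_pow_right (by norm_num) hi)
    · rw [msk_zero hj, Nat.zero_testBit]
  intro i j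
  rcases lt_or_ge i L.length with hi | hi
  · rcases lt_or_ge j L.length with hj | hj
    · exact (good_spec h i hi).2.2 j hj
    · exact (key j i hj).symm
  · exact key i j hi

/-- the graph on `Fin n` given by a list of masks -/
def gr (L : List ℕ) (h : good L = true) (n : ℕ) : SimpleGraph (Fin n) where
  Adj u v := (msk L u).testBit v = true
  symm := ⟨fun u v huv => by rw [msk_symm h]; exact huv⟩
  loopless := ⟨fun u hu => by
    rcases lt_or_ge u.val L.length with hi | hi
    · rw [(good_spec h _ hi).2.1] at hu
      exact Bool.noConfusion hu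
    · rw [msk_zero hi, Nat.zero_testBit] at hu
      exact Bool.noConfusion hu⟩

lemma degree_eq {n : ℕ} (L : List ℕ) (h : good L = true) (v : Fin n)
    [Fintype ((gr L h n).neighborSet v)] : (gr L h n).degree v =
      (Finset.univ.filter fun w : Fin n => (msk L v).testBit w = true).card := by
  unfold SimpleGraph.degree
  congr 1
  ext w
  rw [SimpleGraph.mem_neighborFinset, Finset.mem_filter]
  simp [gr]

/-- the counterexample -/
def LG : List ℕ := [2440, 299264, 658432, 558081, 264736, 196752, 143616, 8737, 65603, 49296, 24588, 4117, 18498, 263360, 71168, 131594, 540960, 32868, 532498, 327692]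

/-- the Robertson graph -/
def LH : List ℕ := [65864, 16688, 82560, 299009, 264706, 200706, 139777, 393476, 1155, 4180, 14592, 99344, 1576, 279616, 40966, 149512, 2085, 32992, 8344]

/-- the circulant graph -/
def LC : List ℕ := [4386, 581, 1162, 2324, 4648, 1105, 2210, 4420, 649, 1298, 2596, 5192, 2193]

lemma goodG : good LG = true := by decide +kernel
lemma goodH : good LH = true := by decide +kernel
lemma goodC : good LC = true := by decide +kernel

lemma degG : ∀ v : Fin 20,
    (Finset.univ.filter fun w : Fin 20 => (msk LG v).testBit w = true).card = 4 := by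
  decide +kernel

lemma degH : ∀ v : Fin 19,
    (Finset.univ.filter fun w : Fin 19 => (msk LH v).testBit w = true).card = 4 := by
  decide +kernel

lemma triG : ∀ a b : Fin 20, (msk LG a).testBit b = true → ∀ c : Fin 20,
    (msk LG a).testBit c = true → (msk LG b).testBit c = false := by
  decide +kernel

lemma triH : ∀ a b : Fin 19, (msk LH a).testBit b = true → ∀ c : Fin 19,
    (msk LH b).testBit c = true → (msk LH c).testBit a = false := by
  decide +kernel

lemma quadH : ∀ a b : Fin 19, (msk LH a).testBit b = true → ∀ c : Fin 19,
    ((msk LH b).testBit c = true ∧ c ≠ a) → ∀ d : Fin 19,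
    ((msk LH c).testBit d = true ∧ (msk LH d).testBit a = true) → d = b := by
  decide +kernel

lemma runG : run (msk LG) 2 20 0 = (72225, 359800) := by decide +kernel
lemma runC : run (msk LC) 2 13 0 = (1483, 4810) := by decide +kernel

lemma girthH : (5 : ℕ∞) ≤ (gr LH goodH 19).egirth := by
  rw [SimpleGraph.le_egirth]
  intro a w hw
  have h3 := hw.three_le_length
  have hadj : ∀ i < w.length, (msk LH (w.getVert i)).testBit (w.getVert (i + 1)) = true :=
    fun i hi => w.adj_getVert_succ hi
  have hl : w.getVert w.length = w.getVert 0 := w.getVert_length.trans w.getVert_zero.symm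
  by_contra hlt
  have hlt' : w.length < 5 := by
    by_contra h
    exact hlt (by exact_mod_cast not_lt.1 h)
  have h34 : w.length = 3 ∨ w.length = 4 := by omega
  rcases h34 with h | h
  · have a0 := hadj 0 (by omega)
    have a1 := hadj 1 (by omega)
    have a2 := hadj 2 (by omega)
    rw [h] at hl
    simp only [zero_add, Nat.reduceAdd] at a0 a1 a2
    rw [hl] at a2
    have := triH _ _ a0 _ a1
    rw [this] at a2
    exact Bool.noConfusion a2
  · have a0 := hadj 0 (by omega)
    have a1 := hadj 1 (by omega)
    have a2 := hadj 2 (by omega)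
    have a3 := hadj 3 (by omega)
    rw [h] at hl
    simp only [zero_add, Nat.reduceAdd] at a0 a1 a2 a3
    rw [hl] at a3
    have hne : w.getVert 2 ≠ w.getVert 0 := by
      intro he
      rw [← hl] at he
      have := hw.getVert_injOn (by rw [Set.mem_ofPred_eq]; omega)
        (by rw [Set.mem_ofPred_eq]; omega) he
      omega
    have h31 := quadH _ _ a0 _ ⟨a1, hne⟩ _ ⟨a2, a3⟩
    have := hw.getVert_injOn (by rw [Set.mem_ofPred_eq]; omega)
        (by rw [Set.mem_ofPred_eq]; omega) h31
    omega

lemma freeG : (gr LG goodG 20).CliqueFree 3 := by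
  intro s hs
  rw [SimpleGraph.is3Clique_iff] at hs
  obtain ⟨a, b, c, hab, hac, hbc, -⟩ := hs
  have h := triG a b hab c hac
  have hbc' : (msk LG b).testBit c = true := hbc
  rw [h] at hbc'
  exact Bool.noConfusion hbc'

lemma adjC : ∀ u v : ZMod 13, (SimpleGraph.fromRel
    (fun x y : ZMod 13 => x - y = 1 ∨ x - y = 5)).Adj u v ↔
      (msk LC u.val).testBit v.val = true := by
  intro u v
  rw [SimpleGraph.fromRel_adj]
  revert u v
  decide +kernel


end Pool.Agent.Y434.Occ
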