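import Mathlib

/-!
# Sums over independent sets by reflection

`run a x k forb` computes, for the graph on the natural numbers in which `i` and `j` are adjacent if
bit `j` of `a i` is set, the two sums `Σ x ^ |I|` and `Σ |I| x ^ |I|` over all independent subsets
`I` of `{0, ..., k - 1}` which avoid the set of bits of `forb`.
-/

set_option autoImplicit false

namespace Pool.Agent.Y434.IndepSum

open Finset

def run (a : ℕ → ℕ) (x : ℕ) : ℕ → ℕ → ℕ × ℕ
  | 0, _ => (1, 0)
  | k + 1, forb =>
    let p := run a x k forb
    if forb.testBit k then p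
    else
      let q := run a x k (forb ||| a k)
      (p.1 + x * q.1, p.2 + x * (q.1 + q.2))

/-- independent sets avoiding the bits of `forb` -/
def Ok (a : ℕ → ℕ) (forb : ℕ) (I : Finset ℕ) : Prop :=
  (∀ i ∈ I, ∀ j ∈ I, i ≠ j → (a i).testBit j = false) ∧ ∀ i ∈ I, forb.testBit i = false

theorem ok_insert (a : ℕ → ℕ) (hs : ∀ i j, (a i).testBit j = (a j).testBit i) (forb k : ℕ)
    (I : Finset ℕ) (hk : k ∉ I) :
    Ok a forb (insert k I) ↔ forb.testBit k = false ∧ Ok a (forb ||| a k) I := by
  unfold Ok
  constructor
  · rintro ⟨h1, h2⟩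
    refine ⟨h2 k (mem_insert_self _ _), ?_, ?_⟩
    · intro i hi j hj hij
      exact h1 i (mem_insert_of_mem hi) j (mem_insert_of_mem hj) hij
    · intro i hi
      rw [Nat.testBit_or, h2 i (mem_insert_of_mem hi), Bool.false_or]
      exact h1 k (mem_insert_self _ _) i (mem_insert_of_mem hi) (by rintro rfl; exact hk hi)
  · rintro ⟨h0, h1, h2⟩
    have h3 : ∀ i ∈ I, forb.testBit i = false ∧ (a k).testBit i = false := by
      intro i hi
      have := h2 i hi
      rw [Nat.testBit_or, Bool.or_eq_false_iff] at this
      exact this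
    constructor
    · intro i hi j hj hij
      rcases mem_insert.1 hi with hi' | hi'
      · rcases mem_insert.1 hj with hj' | hj'
        · exact absurd (hi'.trans hj'.symm) hij
        · rw [hi']; exact (h3 j hj').2
      · rcases mem_insert.1 hj with hj' | hj'
        · rw [hs, hj']; exact (h3 i hi').2
        · exact h1 i hi' j hj' hij
    · intro i hi
      rcases mem_insert.1 hi with rfl | hi
      · exact h0
      · exact (h3 i hi).1

open Classical in
theorem run_eq (a : ℕ → ℕ) (hs : ∀ i j, (a i).testBit j = (a j).testBit i) (x : ℕ) :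
    ∀ k forb : ℕ,
      (∑ I ∈ (range k).powerset, if Ok a forb I then x ^ I.card else 0) = (run a x k forb).1 ∧
      (∑ I ∈ (range k).powerset, if Ok a forb I then I.card * x ^ I.card else 0) =
        (run a x k forb).2 := by
  intro k
  induction k with
  | zero =>
    intro forb
    simp [run, Ok]
  | succ k ih =>
    intro forb
    have hk : k ∉ range k := by simp
    rw [range_add_one, sum_powerset_insert hk, sum_powerset_insert hk, (ih forb).1, (ih forb).2]
    have key : ∀ I ∈ (range k).powerset, (Ok a forb (insert k I) ↔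
        forb.testBit k = false ∧ Ok a (forb ||| a k) I) ∧ (insert k I).card = I.card + 1 := by
      intro I hI
      have : k ∉ I := fun h => hk (mem_powerset.1 hI h)
      exact ⟨ok_insert a hs forb k I this, card_insert_of_notMem this⟩
    by_cases hf : forb.testBit k = true
    · have e1 : ∀ I ∈ (range k).powerset, (if Ok a forb (insert k I) then
          x ^ (insert k I).card else 0) = 0 := by
        intro I hI
        rw [if_neg]
        rw [(key I hI).1, hf]
        simp
      have e2 : ∀ I ∈ (range k).powerset, (if Ok a forb (insert k I) then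
          (insert k I).card * x ^ (insert k I).card else 0) = 0 := by
        intro I hI
        rw [if_neg]
        rw [(key I hI).1, hf]
        simp
      rw [sum_eq_zero e1, sum_eq_zero e2]
      simp [run, hf]
    · have hf' : forb.testBit k = false := by simpa using hf
      have e1 : ∀ I ∈ (range k).powerset, (if Ok a forb (insert k I) then
          x ^ (insert k I).card else 0) =
          x * (if Ok a (forb ||| a k) I then x ^ I.card else 0) := by
        intro I hI
        rw [(key I hI).2]
        by_cases h : Ok a (forb ||| a k) I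
        · rw [if_pos h, if_pos ((key I hI).1.2 ⟨hf', h⟩)]
          ring
        · rw [if_neg h, if_neg (fun h' => h ((key I hI).1.1 h').2)]
          ring
      have e2 : ∀ I ∈ (range k).powerset, (if Ok a forb (insert k I) then
          (insert k I).card * x ^ (insert k I).card else 0) =
          x * ((if Ok a (forb ||| a k) I then x ^ I.card else 0) +
            (if Ok a (forb ||| a k) I then I.card * x ^ I.card else 0)) := by
        intro I hI
        rw [(key I hI).2]
        by_cases h : Ok a (forb ||| a k) I
        · rw [if_pos h, if_pos ((key I hI).1.2 ⟨hf', h⟩), if_pos h]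
          ring
        · rw [if_neg h, if_neg (fun h' => h ((key I hI).1.1 h').2), if_neg h]
          ring
      rw [sum_congr rfl e1, sum_congr rfl e2, ← mul_sum, ← mul_sum, sum_add_distrib,
        (ih _).1, (ih _).2]
      simp [run, hf']

open Classical in
/-- transfer to a graph on a finite type -/
theorem sum_indep {V : Type} [Fintype V] (G : SimpleGraph V) {n : ℕ} (e : V ≃ Fin n) (a : ℕ → ℕ)
    (ha : ∀ u v, G.Adj u v ↔ (a (e u).val).testBit (e v).val = true)
    {M : Type} [AddCommMonoid M] (f : ℕ → M)
    (dec : ∀ I : Finset V, Decidable (G.IsIndepSet (I : Set V))) :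
    (∑ I : Finset V, if G.IsIndepSet (I : Set V) then f I.card else 0) =
      ∑ I ∈ (range n).powerset, if Ok a 0 I then f I.card else 0 := by
  let E : V ↪ ℕ := e.toEmbedding.trans Fin.valEmbedding
  have hE : ∀ v, E v = (e v).val := fun v => rfl
  refine sum_bij (fun I _ => I.map E) ?_ ?_ ?_ ?_
  · intro I _
    rw [mem_powerset]
    intro i hi
    obtain ⟨v, -, rfl⟩ := mem_map.1 hi
    rw [hE, mem_range]
    exact (e v).isLt
  · intro I _ J _ h
    exact map_injective E h
  · intro J hJ
    refine ⟨univ.filter (fun v => E v ∈ J), mem_univ _, ?_⟩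
    ext i
    simp only [mem_map, mem_filter, mem_univ, true_and]
    constructor
    · rintro ⟨v, hv, rfl⟩
      exact hv
    · intro hi
      have hin : i < n := mem_range.1 (mem_powerset.1 hJ hi)
      refine ⟨e.symm ⟨i, hin⟩, ?_, ?_⟩
      · rw [hE]; simpa using hi
      · rw [hE]; simp
  · intro I _
    rw [card_map]
    have : G.IsIndepSet (I : Set V) ↔ Ok a 0 (I.map E) := by
      unfold Ok SimpleGraph.IsIndepSet Set.Pairwise
      constructor
      · intro h
        refine ⟨?_, by simp⟩
        intro i hi j hj hij
        obtain ⟨u, hu, rfl⟩ := mem_map.1 hi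
        obtain ⟨v, hv, rfl⟩ := mem_map.1 hj
        have huv : u ≠ v := fun h => hij (by rw [h])
        have h1 : ¬ G.Adj u v := h (mem_coe.2 hu) (mem_coe.2 hv) huv
        rw [ha] at h1
        rw [hE, hE]
        simpa using h1
      · rintro ⟨h, -⟩ u hu v hv huv h1
        rw [ha] at h1
        have h2 := h (E u) (mem_map_of_mem E (mem_coe.1 hu)) (E v)
          (mem_map_of_mem E (mem_coe.1 hv)) (fun h => huv (E.injective h))
        rw [hE, hE] at h2
        rw [h1] at h2
        exact Bool.noConfusion h2
    by_cases h : G.IsIndepSet (I : Set V)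
    · rw [if_pos h, if_pos (this.1 h)]
    · rw [if_neg h, if_neg (fun h' => h (this.2 h'))]

open Classical in
theorem sum_real {V : Type} [Fintype V] (G : SimpleGraph V) {n : ℕ} (e : V ≃ Fin n) (a : ℕ → ℕ)
    (hs : ∀ i j, (a i).testBit j = (a j).testBit i)
    (ha : ∀ u v, G.Adj u v ↔ (a (e u).val).testBit (e v).val = true) (x : ℕ)
    (dec : ∀ I : Finset V, Decidable (G.IsIndepSet (I : Set V))) :
    (∑ I : Finset V, if G.IsIndepSet (I : Set V) then (x : ℝ) ^ I.card else 0) =
      ((run a x n 0).1 : ℝ) ∧
    (∑ I : Finset V, if G.IsIndepSet (I : Set V) then (I.card : ℝ) * (x : ℝ) ^ I.card else 0) =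
      ((run a x n 0).2 : ℝ) := by
  rw [sum_indep G e a ha (fun k => (x : ℝ) ^ k) dec,
    sum_indep G e a ha (fun k => (k : ℝ) * (x : ℝ) ^ k) dec]
  rw [← (run_eq a hs x n 0).1, ← (run_eq a hs x n 0).2]
  push_cast
  exact ⟨rfl, rfl⟩

end Pool.Agent.Y434.IndepSum
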